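import Mathlib
import Pool.Agent.TH94.Gol.Count
import Pool.Agent.TH94.Gol.Surf

set_option autoImplicit false

namespace Pool.Agent.Results.MP_46f5ab_gt.GoldmanReverse

open Pool.Agent.TH94.Goldman

/-- The Goldman bracket of a primitive class with its reverse has exactly twice as many terms as the
class has self-intersections. -/
theorem result : ∀ (Γ : Type) [Group Γ], IsSurfaceGroup Γ → ∀ ρ : Γ →* SL2R,
    Function.Injective ρ → IsDiscrete ρ → ∀ w : Γ, IsPrimitive w →
      (nonzeroTerms ρ w w⁻¹).Finite ∧ (numTerms (bracket ρ w w⁻¹) : ℕ∞) = 2 * SI ρ w := by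
  intro Γ _ hΓ ρ hinj hdisc w hw
  exact Pool.Agent.TH94.Gol.main ρ (Pool.Agent.TH94.Gol.hasSep_of_isSurfaceGroup hΓ) hinj hdisc w hw

end Pool.Agent.Results.MP_46f5ab_gt.GoldmanReverse
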